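import Mathlib

/-!
Definitions used in the statement: connected semisimple groups all of whose simple factors have
real rank at least two, and the conditions `m < v(G)` and `m < d(G)`.
-/

open scoped Matrix TensorProduct

attribute [local instance 100] LieRing.ofAssociativeRing

namespace Pool.Agent.P.MP_d483fb_an.Z

/-- Real square matrices. -/
abbrev Mat (n : ℕ) : Type := Matrix (Fin n) (Fin n) ℝ

/-- Generators of the one parameter groups contained in `S`. -/
def lieSet {n : ℕ} (S : Set (Mat n)) : Set (Mat n) := {X | ∀ t : ℝ, NormedSpace.exp (t • X) ∈ S}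

/-- The Lie algebra of a group of matrices. -/
noncomputable def lieAlg {n : ℕ} (S : Set (Mat n)) : LieSubalgebra ℝ (Mat n) :=
  LieSubalgebra.lieSpan ℝ (Mat n) (lieSet S)

/-- A homomorphism which is a covering map from `G` onto a closed group of matrices that is stable
under transposition, has a semisimple Lie algebra, and all of whose simple ideals have real rank at
least two. -/
structure HigherRank (G : Type) [Group G] [TopologicalSpace G] (n : ℕ) where
  ρ : G →* Mat n
  closed : IsClosed (Set.range ρ)
  cov : IsCoveringMap (Set.rangeFactorization ρ)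
  tr : ∀ g, ∃ g', ρ g' = (ρ g)ᵀ
  ss : LieAlgebra.IsSemisimple ℝ (lieAlg (Set.range ρ))
  rank : ∀ I : LieIdeal ℝ (lieAlg (Set.range ρ)), IsAtom I → ∃ X ∈ I, ∃ Y ∈ I,
    X.1.IsSymm ∧ Y.1.IsSymm ∧ ⁅X, Y⁆ = 0 ∧ LinearIndependent ℝ ![X, Y]

variable {G : Type} [Group G] [TopologicalSpace G] {n : ℕ}

/-- The dimension of a closed subgroup. -/
noncomputable def HigherRank.dim (D : HigherRank G n) (H : Subgroup G) : ℕ :=
  Module.finrank ℝ (lieAlg (D.ρ '' H))

/-- `m < v(G)`: every proper closed subgroup has codimension greater than `m`. -/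
def HigherRank.ltV (D : HigherRank G n) (m : ℕ) : Prop :=
  ∀ H : Subgroup G, IsClosed (H : Set G) → H ≠ ⊤ → m < D.dim ⊤ - D.dim H

/-- `m < d(G)`: for every compact connected group `K` of orthogonal matrices whose complexified Lie
algebra is isomorphic to a simple ideal of the complexified Lie algebra of `G`, every proper closed
subgroup `C` of `K` has codimension greater than `m`. -/
def HigherRank.ltD (D : HigherRank G n) (m : ℕ) : Prop :=
  ∀ (N : ℕ) (K C : Submonoid (Mat N)), IsCompact (K : Set (Mat N)) → IsConnected (K : Set (Mat N)) →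
    (∀ k ∈ K, k * kᵀ = 1) → IsClosed (C : Set (Mat N)) → C < K →
    (∃ I : LieIdeal ℂ (ℂ ⊗[ℝ] lieAlg (Set.range D.ρ)), IsAtom I ∧
      Nonempty ((ℂ ⊗[ℝ] lieAlg (K : Set (Mat N))) ≃ₗ⁅ℂ⁆ I)) →
    m < Module.finrank ℝ (lieAlg (K : Set (Mat N))) - Module.finrank ℝ (lieAlg (C : Set (Mat N)))

end Pool.Agent.P.MP_d483fb_an.Z
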