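import Pool.Agent.P.MP_d483fb_an.Z.TZ.Exit
import Pool.Agent.P.MP_d483fb_an.Z.Geo.Exit
import Pool.Agent.P.MP_d483fb_an.Z.Top.Lmr
import Pool.Agent.P.MP_d483fb_an.Z.Loop.ThmD
import Pool.Agent.P.MP_d483fb_an.Z.SR.Final
import Pool.Agent.P.MP_d483fb_an.Z.HP.Exit
import Pool.Agent.P.MP_d483fb_an.Z.PS.Exit
import Pool.Agent.P.MP_d483fb_an.Z.LSB.Main
import Pool.Agent.P.MP_d483fb_an.Z.Top.Defs
import Pool.Agent.P.MP_d483fb_an.Z.Loop.Defs
import Pool.Agent.P.MP_d483fb_an.Z.Geo.ToLS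
import Pool.Agent.P.MP_d483fb_an.Z.Su.Len2
import Pool.Agent.P.MP_d483fb_an.Z.Su.ToLen
import Pool.Agent.P.MP_d483fb_an.Z.Lie.ExStd
import Pool.Agent.P.MP_d483fb_an.Z.Lie.Root2
import Pool.Agent.P.MP_d483fb_an.Z.Avg.Exit
import Pool.Agent.P.MP_d483fb_an.Z.Avg.BaseExt
import Pool.Agent.P.MP_d483fb_an.Z.Erg.Moore
import Pool.Agent.P.MP_d483fb_an.Z.TZ.KazStd
import Pool.Agent.P.MP_d483fb_an.Z.TZ.Comp
import Pool.Agent.P.MP_d483fb_an.Z.TZ.FrDefs
import Pool.Agent.P.MP_d483fb_an.Z.NF.JetsEx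
import Pool.Agent.P.MP_d483fb_an.Z.SR.SRdDef
import Pool.Agent.P.MP_d483fb_an.Z.SR.Defs

/-! The assembly of all parts. -/

open scoped Manifold ContDiff InnerProductSpace RealInnerProductSpace Topology
open MeasureTheory Filter Set

set_option linter.unusedSectionVars false

noncomputable section

namespace Pool.Agent.P.MP_d483fb_an.Z

variable {G : Type} [Group G] [TopologicalSpace G] [IsTopologicalGroup G] [ConnectedSpace G]
  [T2Space G] [LocallyCompactSpace G] [SecondCountableTopology G] [MeasurableSpace G]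
  [BorelSpace G] {n k : ℕ}

section Geo

variable {B : Type} [MetricSpace B] [ProperSpace B] [MeasurableSpace B] [BorelSpace B]
  [MulAction G B] [ContinuousSMul G B] {X : Type} [MetricSpace X] [ProperSpace X]
  [MeasurableSpace X] [BorelSpace X] [MulAction G X] [ContinuousSMul G X]

theorem Std.thmD (D : Std G n k) {m : ℕ} {π : X → B} {m0 : Measure B} (hG : D.HasGeo m π m0) :
    D.ThmD m π m0 :=
  D.thmD_of_hasGeo hG fun _ _ _ _ _ S => ⟨S.toLS.hasLW, S.toLS.hasPS, S.hasHP⟩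

end Geo

section Act

variable {m : ℕ} {M : Type} [MetricSpace M] [CompactSpace M] [MeasurableSpace M] [BorelSpace M]
  [ChartedSpace (EuclideanSpace ℝ (Fin m)) M] [IsManifold (𝓡 m) ∞ M]

/-- The invariant measure on the suspension. -/
theorem Std.exists_inv (D : Std G n k) (Γ : Subgroup G) [DiscreteTopology Γ] [Nonempty M]
    (m0 : Measure (D.lat Γ).B) [IsProbabilityMeasure m0] [SMulInvariantMeasure G (D.lat Γ).B m0]
    (e : Emb m M) (α : (D.lat Γ).Γ →* Equiv.Perm M) (J : NF.Jets α (fun γ => D.len γ) m)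
    (hv : D.ltV m) :
    ∃ (X : Type) (_ : MetricSpace X) (_ : ProperSpace X) (_ : MeasurableSpace X)
      (_ : BorelSpace X) (_ : MulAction G X) (_ : ContinuousSMul G X) (_ : Skw (D.lat Γ) α X)
      (ν : Measure X), IsProbabilityMeasure ν ∧
      (∀ g : G, MeasurePreserving (fun x : X => g • x) ν ν) ∧ D.ErgA ν := by
  obtain ⟨X, i1, i2, i3, i4, i5, i6, E, hc, hp, hG⟩ := D.exists_susp Γ m0 e α J
  have heq : ∀ (g : G) x, E.π (g • x) = g • E.π x := fun g x => congrArg Prod.fst (E.smul g x)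
  have hext : IsExt G E.π m0 := (D.lat Γ).base.isExt m0 hc heq hp
  obtain ⟨p⟩ := ‹Nonempty M›
  have hm : Measurable fun b : (D.lat Γ).B => E.e.symm (b, p) :=
    E.e.symm.measurable.comp measurable_prodMk_right
  have h0 : ∃ ν : Measure X, IsProbabilityMeasure ν ∧ ν.map E.π = m0 := by
    refine ⟨m0.map fun b => E.e.symm (b, p), Measure.isProbabilityMeasure_map hm.aemeasurable, ?_⟩
    rw [Measure.map_map hc.measurable hm]
    have : (E.π ∘ fun b => E.e.symm (b, p)) = id := by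
      funext b
      simp [Skw.π]
    rw [this, Measure.map_id]
  obtain ⟨s, hs⟩ := D.exists_reg
  obtain ⟨ν, h1, -, h3, h4⟩ := D.exists_invariant hext h0
    ⟨s, D.ergodic_of_full _ (D.lat Γ).base (D.full_of_reg hs)⟩ hv fun ν a1 a2 a3 a4 => by
      obtain ⟨w, hw⟩ := D.thmD hG ν a1 a2 a3 a4
      exact ⟨Fin m, inferInstance, w, (Fintype.card_fin m).le, hw⟩
  exact ⟨X, i1, i2, i3, i4, i5, i6, E, ν, h1, h3, h4⟩

theorem finite_of_emb [ConnectedSpace M] (R : HigherRank G n) (hv : R.ltV m) (hd : R.ltD m)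
    (Γ : Subgroup G) (hΓ : IsLattice Γ) (e : Emb m M) (α : Γ →* Equiv.Perm M)
    (hα : ∀ γ, ContMDiff (𝓡 m) (𝓡 m) ∞ (α γ)) : (range α).Finite := by
  obtain ⟨k, D, -, -, -, h1, -⟩ := R.exists_std
  have hT := D.hasT hΓ
  have hl := D.lmr Γ hΓ
  have hS := SR.srd_lattice R hd Γ hΓ
  obtain ⟨hdisc, m0, hm0, hinv⟩ := hΓ
  obtain ⟨A, J, hJ⟩ := NF.exists_jets e.smooth e.dist_eq e.imm α hα
    (len := fun γ => D.len γ) (fun γ => D.len_nonneg γ) hl
  obtain ⟨X, _, _, _, _, _, _, E, ν, _, hG, hA⟩ :=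
    @Std.exists_inv G _ _ _ _ _ _ _ _ _ n k m M _ _ _ _ _ _ D Γ hdisc _ m0 hm0 hinv e α J (h1 m hv)
  exact D.finite_of_inv Γ e α hα A J hJ E ν hG hA (h1 m hv)
    (fun Λ h => @TZ.HasT.of_finiteIndex Γ _ hT Λ h) hS

end Act

omit [MeasurableSpace G] [BorelSpace G] in
/-- Zimmer's conjecture for groups that cover a closed self-adjoint matrix group. -/
theorem main_higherRank (D : HigherRank G n) (Γ : Subgroup G) (hΓ : IsLattice Γ)
    (m : ℕ) (M : Type) [TopologicalSpace M] [T2Space M] [CompactSpace M]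
    [ChartedSpace (EuclideanSpace ℝ (Fin m)) M] [IsManifold (𝓡 m) ∞ M]
    (hv : D.ltV m) (hd : D.ltD m)
    (α : Γ →* Equiv.Perm M) (hα : ∀ γ, ContMDiff (𝓡 m) (𝓡 m) ∞ (α γ)) :
    (Set.range α).Finite := by
  borelize G
  refine TZ.finite_of_connected (fun Γ hΓ M _ _ _ _ _ _ α hα => ?_) Γ hΓ M α hα
  obtain ⟨N, ι, h1, h2, h3⟩ := exists_embedding_euclidean_of_compact (I := 𝓡 m) (M := M)
  let _ : MetricSpace M := h2.isEmbedding.comapMetricSpace ι
  borelize M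
  exact finite_of_emb D hv hd Γ hΓ ⟨N, ι, h1, fun p q => dist_eq_norm (ι p) (ι q), h3⟩ α hα

end Pool.Agent.P.MP_d483fb_an.Z
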